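import Pool.Agent.Q60.NH.Defs

/-!
# The noncommutative variational Hodge conjecture: definitions
-/

set_option autoImplicit false

namespace Pool.Agent.Q60.NV

open TensorProduct Module
open Pool.Agent.Q60.NH
open Pool.Agent.Q60.D3 (AV IsSimple IsIsogenousToProd)
open Pool.Agent.Q60.D3E (HasCMType)
open Pool.Agent.Q60.D3H (KMult)
open Pool.Agent.Q180.UW (IsUnitary)
open Pool.Agent.Q180.UV (IsReal IsReal2 IsBal)

/-- The abelian variety `X` is isogenous to a product of abelian varieties `A i`, in any number and with
any multiplicities, none of them of CM type, each of which is simple of dimension at most three; or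
simple of prime dimension, such that the larger one of the two multiplicities of each imaginary
quadratic field in the endomorphism algebra is two or three; or of unitary type with the
multiplicities between one and two or three; or a fourfold of Weil type with the smallest endomorphism
algebra; or of real type, of odd relative dimension or of relative dimension two. -/
def IsPlain (X : AV) : Prop :=
  ∃ (ι : Type) (A : ι → AV), Finite ι ∧ IsIsogenousToProd X A ∧ ∀ i,
    (∀ B, ¬ HasCMType (A i) B) ∧
    ((IsSimple (A i) ∧ finrank ℂ (A i).T ≤ 3) ∨
      (IsSimple (A i) ∧ (finrank ℂ (A i).T).Prime ∧ ∀ M, KMult (A i) M → M = 2 ∨ M = 3) ∨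
      IsUnitary (A i) 2 2 ∨ IsUnitary (A i) 2 3 ∨ IsBal (A i) 2 ∨
      IsReal (A i) ∨ IsReal2 (A i))

/-- The noncommutative motive of `C` is, up to homological equivalence, a direct summand of a sum of
motives of such abelian varieties: there are such abelian varieties `X j` and kernels from `C` to
`D^perf(X j)` and from `D^perf(X j)` to `C` whose compositions have the sum one on `K C`. -/
def FromPlain (T : NCData) (C : T.Cat) : Prop :=
  ∃ (n : ℕ) (X : Fin n → AV) (α : ∀ j, T.Cor C (T.perf (X j))) (β : ∀ j, T.Cor (T.perf (X j)) C),
    (∀ j, IsPlain (X j)) ∧ ∀ x : T.K C, ∑ j, T.act (β j) (T.act (α j) x) = x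

/-- A family `f : X → S` with an `S`-linear admissible subcategory `C` of `D^perf(X)`: the points of
the base, the base change `fibre s` of `C` to the fibre over `s`, and the values `val s φ` of the
global sections `φ` of the local system `K^top_0(C / S) ⊗ ℚ`. -/
structure Family (T : NCData) where
  /-- the points of the base -/
  S : Type
  /-- the fibres -/
  fibre : S → T.Cat
  /-- the global sections of the local system -/
  Sec : Type
  [addS : AddCommGroup Sec]
  [modS : Module ℚ Sec]
  /-- the values of the sections -/
  val : ∀ s, Sec →ₗ[ℚ] T.K (fibre s)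

attribute [instance] Family.addS Family.modS

variable {T : NCData}

/-- The known facts, where `Thin` are the thin sets (the subsets of countable unions of closed
subvarieties of `S` different from `S`): the space of the global sections has finite dimension;
subsets of thin sets are thin; if the points where a section is not algebraic form a thin set, then
there are no such points; algebraic classes are Hodge classes; a section which is a Hodge class at one
point is a Hodge class at all points. -/
structure Family.Facts (F : Family T) (Thin : Set F.S → Prop) : Prop where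
  finite : Module.Finite ℚ F.Sec
  mono : ∀ A B : Set F.S, A ⊆ B → Thin B → Thin A
  spread : ∀ φ : F.Sec, Thin {s | F.val s φ ∉ T.Alg (F.fibre s)} →
    ∀ s, F.val s φ ∈ T.Alg (F.fibre s)
  alg_hodge : ∀ (φ : F.Sec) (s : F.S), F.val s φ ∈ T.Alg (F.fibre s) →
    F.val s φ ∈ T.Hodge (F.fibre s)
  hodge : ∀ (φ : F.Sec) (o s : F.S), F.val o φ ∈ T.Hodge (F.fibre o) →
    F.val s φ ∈ T.Hodge (F.fibre s)

/-- The noncommutative variational Hodge conjecture for the family: a section which is algebraic at
one point is algebraic at all points. -/
def Family.NCVHC (F : Family T) : Prop :=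
  ∀ (φ : F.Sec) (o : F.S), F.val o φ ∈ T.Alg (F.fibre o) → ∀ s, F.val s φ ∈ T.Alg (F.fibre s)

/-- Products of the admissible subcategories `Z` of `D^perf(Y)` and `C` of `D^perf(X)`: the
subcategory `Z ⊠ C` of `D^perf(Y × X)`, the exterior product of classes, the Euler pairing, and the
contraction of a class on `Z ⊠ C` with a class on `C`. -/
structure Products (T : NCData) where
  /-- the product of categories -/
  ten : T.Cat → T.Cat → T.Cat
  /-- the exterior product of classes -/
  ext : ∀ Z C, T.K Z →ₗ[ℚ] T.K C →ₗ[ℚ] T.K (ten Z C)
  /-- the Euler pairing -/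
  pair : ∀ C, T.K C →ₗ[ℚ] T.K C →ₗ[ℚ] ℚ
  /-- the contraction with a class -/
  con : ∀ Z C, T.K C → T.K (ten Z C) →ₗ[ℚ] T.K Z

/-- The known facts on products: the contraction of a product, and the stability of the algebraic
classes under products and contractions with algebraic classes. -/
structure Products.Facts (P : Products T) : Prop where
  con_ext : ∀ Z C a x y, P.con Z C y (P.ext Z C a x) = P.pair C x y • a
  ext_alg : ∀ Z C, ∀ a ∈ T.Alg Z, ∀ x ∈ T.Alg C, P.ext Z C a x ∈ T.Alg (P.ten Z C)
  con_alg : ∀ Z C, ∀ y ∈ T.Alg C, ∀ x ∈ T.Alg (P.ten Z C), P.con Z C y x ∈ T.Alg Z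

/-- The value at `(s, t)` of the section `∑ a i ⊠ φ i`, where the `a i` and the `φ i` are sections for
the families `F'` and `F`. -/
noncomputable def Products.val (P : Products T) (F' F : Family T) (s : F'.S) (t : F.S) :
    F'.Sec ⊗[ℚ] F.Sec →ₗ[ℚ] T.K (P.ten (F'.fibre s) (F.fibre t)) :=
  TensorProduct.lift ((LinearMap.lcomp ℚ _ (F.val t)).comp
    ((P.ext (F'.fibre s) (F.fibre t)).comp (F'.val s)))

/-- The exterior product of the families `F'` and `F`, over the product of the bases, with the
sections `∑ a i ⊠ φ i`, where the `a i` and the `φ i` are sections for `F'` and `F` (these are all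
sections if there are no nonzero global sections of `K^top_1` for `F`). -/
noncomputable def Products.family (P : Products T) (F' F : Family T) : Family T where
  S := F'.S × F.S
  fibre s := P.ten (F'.fibre s.1) (F.fibre s.2)
  Sec := F'.Sec ⊗[ℚ] F.Sec
  val s := P.val F' F s.1 s.2

/-- All global sections are Hodge classes, and the Euler pairing is nondegenerate on the global
sections (which is a fact by the semisimplicity of the monodromy). -/
structure Family.AllHodge (F : Family T) (P : Products T) : Prop where
  hodge : ∀ (φ : F.Sec) (s : F.S), F.val s φ ∈ T.Hodge (F.fibre s)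
  nondeg : ∀ (o : F.S) (ψ : F.Sec),
    (∀ φ, P.pair (F.fibre o) (F.val o φ) (F.val o ψ) = 0) → ψ = 0

end Pool.Agent.Q60.NV
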