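import Pool.Agent.Q60.NV.Defs

/-!
# The noncommutative variational Hodge conjecture
-/

set_option autoImplicit false

namespace Pool.Agent.Q60.NV

open TensorProduct Module
open Pool.Agent.Q60.NH

variable {T : NCData}

theorem IsPlain.good {X : Pool.Agent.Q60.D3.AV} (h : IsPlain X) : IsGood X := by
  obtain ⟨ι, A, hι, hX, hA⟩ := h
  refine ⟨ι, A, hι, hX, fun i => ?_, fun i k B B' _ hB => absurd hB ((hA i).1 B),
    fun i k l B B' B'' _ _ _ hB => absurd hB ((hA i).1 B)⟩
  rcases (hA i).2 with h | h | h | h | h | h | h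
  · exact Or.inl h
  · exact Or.inr (Or.inl h)
  · exact Or.inr (Or.inr (Or.inl h))
  · exact Or.inr (Or.inr (Or.inr (Or.inl h)))
  · exact Or.inr (Or.inr (Or.inr (Or.inr (Or.inl h))))
  · exact Or.inr (Or.inr (Or.inr (Or.inr (Or.inr (Or.inl h)))))
  · exact Or.inr (Or.inr (Or.inr (Or.inr (Or.inr (Or.inr (Or.inl h))))))

theorem FromPlain.good {C : T.Cat} (h : FromPlain T C) : T.FromGood C := by
  obtain ⟨n, X, α, β, hX, hs⟩ := h
  exact ⟨n, X, α, β, fun j => (hX j).good, hs⟩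

/-- Sections which are Hodge classes at one point are algebraic at all points. -/
theorem alg_of_hodge (h : T.Facts) {F : Family T} {Thin : Set F.S → Prop} (hF : F.Facts Thin)
    (hg : Thin {s | ¬ T.FromGood (F.fibre s)}) {φ : F.Sec} {o : F.S}
    (ho : F.val o φ ∈ T.Hodge (F.fibre o)) (s : F.S) : F.val s φ ∈ T.Alg (F.fibre s) := by
  refine hF.spread φ (hF.mono _ _ (fun t ht => ?_) hg) s
  intro hgood
  exact ht (h.nc hgood (hF.hodge φ o t ho))

lemma val_tmul (P : Products T) (F' F : Family T) (s : F'.S) (t : F.S) (a : F'.Sec) (φ : F.Sec) :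
    P.val F' F s t (a ⊗ₜ[ℚ] φ) = P.ext (F'.fibre s) (F.fibre t) (F'.val s a) (F.val t φ) := by
  rw [Products.val, TensorProduct.lift.tmul]
  rfl

/-- Elements of the tensor product are sums over a basis. -/
lemma sum_basis {A B ι : Type} [AddCommGroup A] [Module ℚ A] [AddCommGroup B] [Module ℚ B]
    [Fintype ι] (e : Basis ι ℚ B) (Φ : A ⊗[ℚ] B) : ∃ a : ι → A, Φ = ∑ i, a i ⊗ₜ[ℚ] e i := by
  induction Φ using TensorProduct.induction_on with
  | zero => exact ⟨0, by simp⟩
  | tmul x φ =>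
    refine ⟨fun i => e.repr φ i • x, ?_⟩
    conv_lhs => rw [← e.sum_repr φ, TensorProduct.tmul_sum]
    refine Finset.sum_congr rfl fun i _ => ?_
    rw [TensorProduct.tmul_smul, TensorProduct.smul_tmul']
  | add x y hx hy =>
    obtain ⟨a, rfl⟩ := hx
    obtain ⟨b, rfl⟩ := hy
    refine ⟨a + b, ?_⟩
    rw [← Finset.sum_add_distrib]
    refine Finset.sum_congr rfl fun i _ => ?_
    rw [Pi.add_apply, TensorProduct.add_tmul]

/-- Products with another family. -/
theorem prod_alg (h : T.Facts) {F : Family T} {Thin : Set F.S → Prop} (hF : F.Facts Thin)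
    (hg : Thin {s | ¬ T.FromGood (F.fibre s)}) {P : Products T} (hP : P.Facts)
    (hA : F.AllHodge P) {F' : Family T} (hF' : F'.NCVHC) (Φ : F'.Sec ⊗[ℚ] F.Sec)
    (o' s' : F'.S) (o s : F.S) (ho : P.val F' F o' o Φ ∈ T.Alg (P.ten (F'.fibre o') (F.fibre o))) :
    P.val F' F s' s Φ ∈ T.Alg (P.ten (F'.fibre s') (F.fibre s)) := by
  have := hF.finite
  have halg : ∀ (φ : F.Sec) (s : F.S), F.val s φ ∈ T.Alg (F.fibre s) := fun φ s =>
    alg_of_hodge h hF hg (hA.hodge φ s) s
  let e := Module.finBasis ℚ F.Sec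
  obtain ⟨a, rfl⟩ := sum_basis e Φ
  -- the dual sections
  have hdual : ∀ j, ∃ ψ : F.Sec, ∀ i,
      P.pair (F.fibre o) (F.val o (e i)) (F.val o ψ) = if i = j then 1 else 0 := by
    let B : F.Sec →ₗ[ℚ] Dual ℚ F.Sec :=
      LinearMap.flip ((LinearMap.lcomp ℚ _ (F.val o)).comp ((P.pair (F.fibre o)).comp (F.val o)))
    have hB : ∀ φ ψ, B ψ φ = P.pair (F.fibre o) (F.val o φ) (F.val o ψ) := fun φ ψ => rfl
    have hinj : Function.Injective B := by
      rw [← LinearMap.ker_eq_bot, LinearMap.ker_eq_bot']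
      intro ψ hψ
      refine hA.nondeg o ψ fun φ => ?_
      rw [← hB, hψ]
      rfl
    have hsurj : Function.Surjective B :=
      (LinearMap.injective_iff_surjective_of_finrank_eq_finrank
        (Subspace.dual_finrank_eq (K := ℚ) (V := F.Sec)).symm).1 hinj
    intro j
    obtain ⟨ψ, hψ⟩ := hsurj (e.coord j)
    refine ⟨ψ, fun i => ?_⟩
    rw [← hB, hψ, Basis.coord_apply, Basis.repr_self, Finsupp.single_apply]
  -- the coefficients are algebraic
  have haA : ∀ j, F'.val o' (a j) ∈ T.Alg (F'.fibre o') := by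
    intro j
    obtain ⟨ψ, hψ⟩ := hdual j
    have h1 := hP.con_alg (F'.fibre o') (F.fibre o) (F.val o ψ) (halg ψ o) _ ho
    rw [map_sum, map_sum] at h1
    have h2 : ∑ i, P.con (F'.fibre o') (F.fibre o) (F.val o ψ)
        (P.val F' F o' o (a i ⊗ₜ[ℚ] e i)) = F'.val o' (a j) := by
      rw [Finset.sum_eq_single j]
      · rw [val_tmul, hP.con_ext, hψ, if_pos rfl, one_smul]
      · intro i _ hi
        rw [val_tmul, hP.con_ext, hψ, if_neg hi, zero_smul]
      · exact fun hj => absurd (Finset.mem_univ _) hj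
    rwa [h2] at h1
  rw [map_sum]
  refine Submodule.sum_mem _ fun i _ => ?_
  rw [val_tmul]
  exact hP.ext_alg _ _ _ (hF' _ _ (haA i) s') _ (halg _ _)

/-- **The noncommutative variational Hodge conjecture.** -/
theorem main (h : T.Facts) {F : Family T} {Thin : Set F.S → Prop} (hF : F.Facts Thin)
    (hp : Thin {s | ¬ FromPlain T (F.fibre s)}) :
    F.NCVHC ∧
    (∀ (φ : F.Sec) (o : F.S), F.val o φ ∈ T.Hodge (F.fibre o) →
      ∀ s, F.val s φ ∈ T.Alg (F.fibre s)) ∧
    ∀ P : Products T, P.Facts → F.AllHodge P → ∀ F' : Family T, F'.NCVHC →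
      (P.family F' F).NCVHC := by
  have hg : Thin {s | ¬ T.FromGood (F.fibre s)} :=
    hF.mono _ {s | ¬ FromPlain T (F.fibre s)} (fun s hs hc => hs (FromPlain.good hc)) hp
  exact ⟨fun _ _ ho s => alg_of_hodge h hF hg (hF.alg_hodge _ _ ho) s,
    fun _ _ ho s => alg_of_hodge h hF hg ho s,
    fun _ hP hA _ hF' Φ o ho s => prod_alg h hF hg hP hA hF' Φ o.1 s.1 o.2 s.2 ho⟩

end Pool.Agent.Q60.NV
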